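import Pool.Agent.CBG.StmtsA

set_option autoImplicit false
set_option maxSynthPendingDepth 3

open scoped Manifold ContDiff Topology
open Set Filter MeasureTheory

namespace Pool.Agent.CBG.H16

/-- **HCT** -/
theorem hct (hpua : PuaStmt) (hpus : PusStmt) : HctStmt := by
  intro n E _ _ _ _ Φ hΦ g a b
  rw [continuous_iff_continuousAt]
  intro p
  obtain ⟨κ, hκ⟩ : ∃ κ, κ = extChartAt (𝓡 n) p := ⟨_, rfl⟩
  obtain ⟨Ψ, hΨ⟩ : ∃ Ψ : (ℝ × ℝ) × Ed n → E, Ψ = fun q => Φ q.1 (κ.symm q.2) := ⟨_, rfl⟩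
  have hsm : ∀ y ∈ κ.target, ContMDiffAt 𝓘(ℝ, (ℝ × ℝ) × Ed n) (𝓡 n) ∞ Ψ (0, y) := by
    intro y hy
    have h1 : ContMDiffAt 𝓘(ℝ, Ed n) (𝓡 n) ∞ κ.symm y := by
      rw [hκ] at hy ⊢
      exact (contMDiffOn_extChartAt_symm p).contMDiffAt ((isOpen_extChartAt_target p).mem_nhds hy)
    have h2 : ContMDiffAt 𝓘(ℝ, (ℝ × ℝ) × Ed n) 𝓘(ℝ, Ed n) ∞
        (fun q : (ℝ × ℝ) × Ed n => q.2) ((0 : ℝ × ℝ), y) :=
      contDiff_snd.contMDiff.contMDiffAt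
    have h3 : ContMDiffAt 𝓘(ℝ, (ℝ × ℝ) × Ed n) 𝓘(ℝ, ℝ × ℝ) ∞
        (fun q : (ℝ × ℝ) × Ed n => q.1) ((0 : ℝ × ℝ), y) :=
      contDiff_fst.contMDiff.contMDiffAt
    have h4 : ContMDiffAt 𝓘(ℝ, (ℝ × ℝ) × Ed n) (𝓡 n) ∞
        (fun q : (ℝ × ℝ) × Ed n => κ.symm q.2) ((0 : ℝ × ℝ), y) :=
      ContMDiffAt.comp (x := ((0 : ℝ × ℝ), y)) (g := κ.symm)
        (f := fun q : (ℝ × ℝ) × Ed n => q.2) h1 h2
    have h5 : ContMDiffAt 𝓘(ℝ, (ℝ × ℝ) × Ed n) (𝓘(ℝ, ℝ × ℝ).prod (𝓡 n)) ∞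
        (fun q : (ℝ × ℝ) × Ed n => (q.1, κ.symm q.2)) ((0 : ℝ × ℝ), y) := h3.prodMk h4
    have h6 := hΦ.smooth.contMDiffAt (x := ((0 : ℝ × ℝ), κ.symm y))
    rw [hΨ]
    exact ContMDiffAt.comp (x := ((0 : ℝ × ℝ), y))
      (g := fun q : (ℝ × ℝ) × E => Φ q.1 q.2)
      (f := fun q : (ℝ × ℝ) × Ed n => (q.1, κ.symm q.2)) h6 h5
  obtain ⟨-, -, -, -, h5⟩ := hpua n E g
  have hin : ∀ q q' : E, q' = q →
      (show Bil (Ed n) from g.inner q') = (show Bil (Ed n) from g.inner q) := by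
    intro q q' h
    subst h
    rfl
  have heq : ∀ q ∈ κ.source, hh g Φ a b q = pull g Ψ ((0 : ℝ × ℝ), κ q) (a, 0) (b, 0) := by
    intro q hq
    have hy : κ q ∈ κ.target := κ.map_source hq
    have h7 := h5 (ℝ × ℝ) ((ℝ × ℝ) × Ed n) Ψ (ContinuousLinearMap.inl ℝ (ℝ × ℝ) (Ed n))
      ((0 : ℝ × ℝ), κ q) 0 (by
        have e1 : (ContinuousLinearMap.inl ℝ (ℝ × ℝ) (Ed n)) 0 + ((0 : ℝ × ℝ), κ q) =
            ((0 : ℝ × ℝ), κ q) := by simp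
        rw [e1]
        exact (hsm _ hy).mdifferentiableAt (by simp)) a b
    have e1 : (ContinuousLinearMap.inl ℝ (ℝ × ℝ) (Ed n)) 0 + ((0 : ℝ × ℝ), κ q) =
        ((0 : ℝ × ℝ), κ q) := by simp
    have e2 : (fun t : ℝ × ℝ => Ψ ((ContinuousLinearMap.inl ℝ (ℝ × ℝ) (Ed n)) t +
        ((0 : ℝ × ℝ), κ q))) = fun t => Φ t q := by
      funext t
      rw [hΨ]
      show Φ (t + 0) (κ.symm (0 + κ q)) = Φ t q
      rw [add_zero, zero_add, κ.left_inv hq]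
    have e3 : ∀ v : ℝ × ℝ, (ContinuousLinearMap.inl ℝ (ℝ × ℝ) (Ed n)) v = (v, 0) := fun v => rfl
    rw [e1, e2, e3, e3] at h7
    rw [← h7]
    show (show Bil (Ed n) from g.inner q) _ _ = (show Bil (Ed n) from g.inner (Φ 0 q)) _ _
    rw [hin q (Φ 0 q) (hΦ.zero q)]
    rfl
  have hp : p ∈ κ.source := by rw [hκ]; exact mem_extChartAt_source p
  have hnh : κ.source ∈ 𝓝 p := by rw [hκ]; exact extChartAt_source_mem_nhds p
  have hc1 : ContinuousAt (pull g Ψ) ((0 : ℝ × ℝ), κ p) :=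
    (hpus n E g ((ℝ × ℝ) × Ed n) Ψ ((0 : ℝ × ℝ), κ p) (hsm _ (κ.map_source hp))).continuousAt
  have hc2 : ContinuousAt (fun q => ((0 : ℝ × ℝ), κ q)) p := by
    refine continuousAt_const.prodMk ?_
    rw [hκ]
    exact continuousAt_extChartAt p
  have hc3 : ContinuousAt (fun q => pull g Ψ ((0 : ℝ × ℝ), κ q)) p :=
    ContinuousAt.comp (x := p) (g := pull g Ψ) (f := fun q => ((0 : ℝ × ℝ), κ q)) hc1 hc2
  have hc4 : ContinuousAt (fun q => pull g Ψ ((0 : ℝ × ℝ), κ q) (a, 0) (b, 0)) p :=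
    (hc3.clm_apply continuousAt_const).clm_apply continuousAt_const
  exact hc4.congr (Filter.eventually_of_mem hnh fun q hq => (heq q hq).symm)

end Pool.Agent.CBG.H16
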