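import Pool.Agent.CBG.StmtsB

/-!
# Squad CBG, row MNH (MP_148648_gt): the minimum of `|V_b(x)|`, `|b| = 1` (helper16)
-/

set_option autoImplicit false
set_option maxSynthPendingDepth 3

open scoped Manifold ContDiff Topology
open Set Filter MeasureTheory

namespace Pool.Agent.CBG.H16

theorem nsq_smul (r : ℝ) (b : ℝ × ℝ) : nsq (r • b) = r ^ 2 * nsq b := by
  simp only [nsq, Prod.smul_fst, Prod.smul_snd, smul_eq_mul]
  ring

theorem nsq_pos {b : ℝ × ℝ} (hb : b ≠ 0) : 0 < nsq b := by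
  unfold nsq
  rcases eq_or_ne b.1 0 with h1 | h1
  · rcases eq_or_ne b.2 0 with h2 | h2
    · exact absurd (Prod.ext h1 h2) hb
    · have := sq_nonneg b.1
      have := sq_pos_of_ne_zero h2
      positivity
  · have := sq_nonneg b.2
    have := sq_pos_of_ne_zero h1
    positivity

theorem circle_compact : IsCompact {b : ℝ × ℝ | nsq b = 1} := by
  apply Metric.isCompact_of_isClosed_isBounded
  · exact isClosed_eq (by unfold nsq; fun_prop) continuous_const
  · refine (Metric.isBounded_closedBall (x := (0 : ℝ × ℝ)) (r := 1)).subset ?_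
    intro b hb
    have hb' : b.1 ^ 2 + b.2 ^ 2 = 1 := hb
    rw [mem_closedBall_zero_iff, Prod.norm_def]
    refine max_le ?_ ?_
    · rw [Real.norm_eq_abs]
      exact abs_le_one_iff_mul_self_le_one.2 (by nlinarith [sq_nonneg b.2])
    · rw [Real.norm_eq_abs]
      exact abs_le_one_iff_mul_self_le_one.2 (by nlinarith [sq_nonneg b.1])

/-- **MNH** -/
theorem mnh (vfx : VfxStmt) (hct : HctStmt) : MnhStmt := by
  intro n E _ _ _ _ _ _ Φ hΦ g
  obtain ⟨-, -, -, -, h5, -⟩ := vfx n E Φ hΦ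
  have hsm : ∀ (x : E) (r : ℝ) (b : ℝ × ℝ), hh g Φ (r • b) (r • b) x = r ^ 2 * hh g Φ b b x := by
    intro x r b
    obtain ⟨s, -, m⟩ := h5 g x
    rw [m, s, m]
    ring
  have hexp : ∀ (x : E) (b : ℝ × ℝ), hh g Φ b b x = b.1 ^ 2 * hh g Φ (1, 0) (1, 0) x +
      2 * (b.1 * b.2) * hh g Φ (1, 0) (0, 1) x + b.2 ^ 2 * hh g Φ (0, 1) (0, 1) x := by
    intro x b
    obtain ⟨s, ad, m⟩ := h5 g x
    have eb : b = b.1 • ((1, 0) : ℝ × ℝ) + b.2 • ((0, 1) : ℝ × ℝ) := by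
      ext <;> simp
    have e1 : ∀ c : ℝ × ℝ, hh g Φ b c x = b.1 * hh g Φ (1, 0) c x + b.2 * hh g Φ (0, 1) c x := by
      intro c
      conv_lhs => rw [eb]
      rw [ad, m, m]
    rw [e1, s (1, 0) b, s (0, 1) b, e1, e1, s (0, 1) (1, 0)]
    ring
  have hcont : Continuous (fun q : (ℝ × ℝ) × E => hh g Φ q.1 q.1 q.2) := by
    have c1 : Continuous (fun q : (ℝ × ℝ) × E => hh g Φ (1, 0) (1, 0) q.2) :=
      (hct n E Φ hΦ g _ _).comp continuous_snd
    have c2 : Continuous (fun q : (ℝ × ℝ) × E => hh g Φ (1, 0) (0, 1) q.2) :=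
      (hct n E Φ hΦ g _ _).comp continuous_snd
    have c3 : Continuous (fun q : (ℝ × ℝ) × E => hh g Φ (0, 1) (0, 1) q.2) :=
      (hct n E Φ hΦ g _ _).comp continuous_snd
    have e : (fun q : (ℝ × ℝ) × E => hh g Φ q.1 q.1 q.2) = fun q : (ℝ × ℝ) × E =>
        q.1.1 ^ 2 * hh g Φ (1, 0) (1, 0) q.2 + 2 * (q.1.1 * q.1.2) * hh g Φ (1, 0) (0, 1) q.2 +
          q.1.2 ^ 2 * hh g Φ (0, 1) (0, 1) q.2 := by
      funext q
      exact hexp q.2 q.1
    rw [e]
    fun_prop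
  have hcomp : IsCompact ({b : ℝ × ℝ | nsq b = 1} ×ˢ (univ : Set E)) :=
    circle_compact.prod isCompact_univ
  obtain ⟨x0⟩ := (inferInstance : Nonempty E)
  have hne : ({b : ℝ × ℝ | nsq b = 1} ×ˢ (univ : Set E)).Nonempty := by
    refine ⟨((1, 0), x0), ?_, mem_univ _⟩
    show nsq (1, 0) = 1
    simp [nsq]
  obtain ⟨⟨a, p⟩, ⟨ha, -⟩, hmin⟩ := hcomp.exists_isMinOn hne hcont.continuousOn
  have ha1 : nsq a = 1 := ha
  refine ⟨p, a, ?_, ?_⟩
  · rintro rfl
    simp [nsq] at ha1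
  · intro x b
    rw [ha1, one_mul]
    by_cases hb : b = 0
    · have h0 : hh g Φ b b x = 0 := by
        have := hsm x 0 b
        rw [zero_smul] at this
        rw [hb]
        simpa using this
      rw [h0, hb]
      simp [nsq]
    · have hp := nsq_pos hb
      have hs : 0 < √(nsq b) := Real.sqrt_pos.2 hp
      have e1 : nsq ((√(nsq b))⁻¹ • b) = 1 := by
        rw [nsq_smul, inv_pow, Real.sq_sqrt hp.le]
        field_simp
      have h1 : hh g Φ a a p ≤ hh g Φ ((√(nsq b))⁻¹ • b) ((√(nsq b))⁻¹ • b) x :=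
        hmin (a := ((√(nsq b))⁻¹ • b, x)) ⟨e1, mem_univ _⟩
      rw [hsm, inv_pow, Real.sq_sqrt hp.le] at h1
      calc nsq b * hh g Φ a a p ≤ nsq b * ((nsq b)⁻¹ * hh g Φ b b x) :=
            mul_le_mul_of_nonneg_left h1 hp.le
        _ = hh g Φ b b x := by
          field_simp

end Pool.Agent.CBG.H16
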