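import Pool.Agent.CBG.StmtsA

set_option autoImplicit false
set_option maxSynthPendingDepth 3

open scoped Manifold ContDiff Topology
open Set Filter MeasureTheory

namespace Pool.Agent.CBG.H16

/-- **TOP** -/
theorem top (hcgl : CglStmt) (hqgl : QglStmt) (hexp : ExpStmt) : TopStmt := by
  intro n E _ _ _ _ _ _ _ hsm hfin g
  have hΦ := hexp n E hsm hfin
  refine ⟨fun hc => hcgl n E _ hΦ g fun t => hc _, ?_⟩
  intro ε lam hε hlam hel h
  exact hqgl n E _ hΦ g ε lam hε hlam hel (fun t => (h _).1) (fun t => (h _).2)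

end Pool.Agent.CBG.H16
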